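import Pool.Agent.Helper56_MG.Stmts
import Pool.Agent.Helper56_MG.Base3

/-!
# Squad MG, module PROP: decision of measurable sets, the conclusion of the induction
-/

open Set

namespace Pool.Agent.MG.H92

variable (I : Type) [Idx I]

/-- The reservoir version. -/
theorem sequ (hHull : HullStmt.{0} I) (hGd : GdStmt I) (hClaim : ClaimStmt I) (hHg : HgStmt I)
    (ρ : I) (hih : ∀ ρ', ρ' < ρ → BRw I ρ' ∧ Cst I ρ') : Sequ I ρ := by
  intro p hp C hC Ru hRu
  -- the hull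
  obtain ⟨N, Z, Y, B, hN, -, hpN, -, hBC, hB, hrule⟩ := hHull ρ hih
    Empty {Sum.inl p} (countable_singleton _)
    (fun e he => by
      rw [mem_singleton_iff] at he
      rw [Sum.inl.inj he]
      exact hp)
    C hC
    (fun n l O C' => ∀ e, l = [Sum.inl e] → e ≤ p → ∃ e', Sum.inl e' ∈ O ∧ e' ≤ e ∧ Ru n e' C')
    (by
      intro n l hl C' hC' hC'i
      by_cases h : ∃ e, l = [Sum.inl e] ∧ e ≤ p
      · obtain ⟨e, rfl, hep⟩ := h
        obtain ⟨q, hqe, hq, C'', h1, h2, h3⟩ := hRu n e (hl e (by simp)) hep C' hC' hC'i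
        refine ⟨{Sum.inl q}, countable_singleton _, fun e' he' => ?_, C'', h1, h2, ?_⟩
        · rw [mem_singleton_iff] at he'
          rw [Sum.inl.inj he']
          exact hq
        · intro e' he' _
          have h4 : e = e' := by simpa using he'
          exact ⟨q, rfl, h4 ▸ hqe, h3⟩
      · refine ⟨∅, countable_empty, fun e he => absurd he (notMem_empty _), C', Subset.rfl, hC'i,
          fun e he hep => absurd ⟨e, he, hep⟩ h⟩)
  have hpN' : p ∈ N := hpN p rfl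
  have hrule' : ∀ n, ∀ e ∈ N, e ≤ p → ∃ e' ∈ N, e' ≤ e ∧ ∃ C' ⊆ C, C'.Infinite ∧
      (B \ C').Finite ∧ Ru n e' C' := by
    intro n e he hep
    obtain ⟨O, hO, -, C', h1, h2, h3, h4⟩ := hrule n [Sum.inl e]
      (fun e' he' => by
        have : e' = e := by simpa using he'
        rw [this]
        exact he)
      (fun x => x.elim)
    obtain ⟨e', h5, h6, h7⟩ := h4 e rfl hep
    exact ⟨e', hO e' h5, h6, C', h1, h2, h3, h7⟩
  have hpb : p.restr ρ = p := hp.below.restr_eq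
  rcases eq_or_lt_of_le (bt_le ρ) with hbt | hbt
  · -- the bottom
    refine ⟨p, le_rfl, hp, B, hBC, hB, fun n => ?_⟩
    obtain ⟨d, hd, hdp, C', h1, h2, h3, h4⟩ := hrule' n p hpN' le_rfl
    refine ⟨{d}, countable_singleton _, ?_, ?_⟩
    · intro y _
      refine mem_biUnion (mem_singleton d) ?_
      intro i hi
      have h5 := (hN.vb d hd).below i hi
      rw [← hbt] at h5
      exact absurd h5 (not_lt.2 (bt_le i))
    · intro d' hd'
      rw [mem_singleton_iff] at hd'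
      rw [hd']
      exact ⟨hN.vb d hd, hdp, C', h1, h2, h3, h4⟩
  · let D : ℕ → Set (Cond I) := fun n => {d | d ≤ p → ∃ C' ⊆ C, C'.Infinite ∧ (B \ C').Finite ∧
      Ru n d C'}
    obtain ⟨𝒟, h𝒟0, h𝒟⟩ := hGd ρ N Z hN (range D) (countable_range D) (by
      rintro _ ⟨n, rfl⟩ e he
      by_cases h : ∃ e' ∈ N, e' ≤ e ∧ e' ≤ p
      · obtain ⟨e', he', h1, h2⟩ := h
        obtain ⟨d, hd, h3, C', h4⟩ := hrule' n e' he' h2
        exact ⟨d, hd, le_trans h3 h1, fun _ => ⟨C', h4⟩⟩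
      · exact ⟨e, he, le_rfl, fun hep => absurd ⟨e, he, le_rfl, hep⟩ h⟩)
    obtain ⟨-, -, hg3, -⟩ := hHg ρ N Z 𝒟 hN h𝒟
    obtain ⟨q, hq, -, hqd⟩ := hClaim ρ N Z 𝒟 hN h𝒟 hih bt ρ hbt hbt.le le_rfl (Cond.one I)
      (VB_one bt) (fun _ => p) (measC_const p) (fun _ _ _ => rfl)
      (fun y _ => ⟨hpN', Cond.mem_restr.2 fun i _ hi => absurd hi (not_lt.2 (bt_le i)), hg3 y⟩)
    refine ⟨q, fun y hy => ?_, hq, B, hBC, hB, fun n => ?_⟩
    · have h1 := (hqd y hy).1
      rwa [hpb] at h1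
    · refine ⟨{d | d ∈ N ∧ d ≤ p ∧ d ∈ D n}, hN.cN.mono fun d hd => hd.1, ?_, ?_⟩
      · intro y hy
        obtain ⟨d, h1, h2, h3, h4⟩ := (hqd y hy).2 (D n) (h𝒟0 (mem_range_self n))
        rw [(hN.vb d h1).below.restr_eq] at h4
        exact mem_biUnion (show d ∈ {d | d ∈ N ∧ d ≤ p ∧ d ∈ D n} from ⟨h1, h2, h3⟩) h4
      · rintro d ⟨h1, h2, h3⟩
        exact ⟨hN.vb d h1, h2, h3 h2⟩

theorem brw {ρ : I} (h : Sequ I ρ) : BRw I ρ := by
  intro p hp D hD
  obtain ⟨q, hqp, hq, B, -, -, hE⟩ := h p hp Set.univ Set.infinite_univ (fun n d _ => d ∈ D n)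
    (fun n d hd hdp C' _ hC' => by
      obtain ⟨d', h1, h2, h3⟩ := hD n d hd hdp
      exact ⟨d', h3, h2, C', Subset.rfl, hC', h1⟩)
  refine ⟨q, hqp, hq, fun n => ?_⟩
  obtain ⟨E, h1, h2, h3⟩ := hE n
  refine ⟨E, h1, fun d hd => ?_, h2⟩
  obtain ⟨h4, h5, C', -, -, -, h6⟩ := h3 d hd
  exact ⟨h6, h4, h5⟩

/-- Sets which can be decided. -/
def Dc (ρ : I) (A : Set (Pt I)) : Prop :=
  ∀ p, VB ρ p → ∃ q, q ≤ p ∧ VB ρ q ∧ (q.body ⊆ A ∨ Disjoint q.body A)

theorem Dc.compl {ρ : I} {A : Set (Pt I)} (h : Dc I ρ A) : Dc I ρ Aᶜ := by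
  intro p hp
  obtain ⟨q, hqp, hq, h1⟩ := h p hp
  refine ⟨q, hqp, hq, h1.symm.imp (fun h2 => ?_) fun h2 => ?_⟩
  · exact disjoint_left.1 h2
  · exact disjoint_left.2 fun y hy hy' => hy' (h2 hy)

theorem Dc.iUnion {ρ : I} (hB : BRw I ρ) {A : ℕ → Set (Pt I)} (h : ∀ n, Dc I ρ (A n)) :
    Dc I ρ (⋃ n, A n) := by
  intro p hp
  by_cases h1 : ∃ n q, q ≤ p ∧ VB ρ q ∧ q.body ⊆ A n
  · obtain ⟨n, q, h2, h3, h4⟩ := h1
    exact ⟨q, h2, h3, Or.inl (h4.trans (subset_iUnion A n))⟩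
  · obtain ⟨q, hqp, hq, hE⟩ := hB p hp (fun n => {d | Disjoint d.body (A n)}) (by
      intro n q hq hqp
      obtain ⟨d, h2, h3, h4⟩ := h n q hq
      rcases h4 with h4 | h4
      · exact absurd ⟨n, d, le_trans h2 hqp, h3, h4⟩ h1
      · exact ⟨d, h4, h3, h2⟩)
    refine ⟨q, hqp, hq, Or.inr ?_⟩
    rw [disjoint_iUnion_right]
    intro n
    obtain ⟨E, -, h2, h3⟩ := hE n
    rw [disjoint_left]
    intro y hy hyA
    obtain ⟨d, hd, hyd⟩ := mem_iUnion₂.1 (h3 hy)
    exact disjoint_left.1 (h2 d hd).1 hyd hyA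

theorem Dc.empty (ρ : I) : Dc I ρ (∅ : Set (Pt I)) :=
  fun p hp => ⟨p, le_rfl, hp, Or.inr (disjoint_empty _)⟩

open Classical in
/-- Truncation. -/
noncomputable def tr (ρ : I) (y : Pt I) : Pt I := fun i => if i < ρ then y i else fun _ => false

/-- One digit of one coordinate can be decided. -/
theorem gen (hCst2 : Cst2Stmt I) {ρ i : I} (hi : i < ρ) (hBi : BRw I i) (hCi : Cst I i) (n : ℕ)
    (p : Cond I) (hp : VB ρ p) :
    ∃ q, q ≤ p ∧ VB ρ q ∧ ∃ b : Bool, ∀ y ∈ q.body, y i n = b := by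
  obtain ⟨c, hc1, hc2, hc3⟩ := exists_sel (I := I) (Set.univ : Set Node) (Set.to_countable _)
    (fun t y => t ∈ p.T i y ∧ t.length = n + 1)
    (fun t _ => (((measurable_node_iff.1 (p.meas i)) t)).inter (MeasurableSet.const _))
    (Set.Iio i) (fun t _ y y' h => by
      show (t ∈ p.T i y ∧ _) = (t ∈ p.T i y' ∧ _)
      rw [p.dep i y y' h])
  have hc4 : ∀ y, c y ∈ p.T i y ∧ (c y).length = n + 1 := by
    intro y
    refine (hc3 y ?_).2
    obtain ⟨x, hx⟩ := (p.good i y).bd_nonempty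
    exact ⟨pre x (n + 1), trivial, hx.1 (n + 1), length_pre x (n + 1)⟩
  obtain ⟨r, hrp, hr, t, ht⟩ := (hCst2 i hBi hCi).1 (p.restr i) (hp.restr i) _ c hc1 hc2
  have hrb : r.restr i = r := hr.below.restr_eq
  have hrr : r.restr i ≤ p.restr i := by rw [hrb]; exact hrp
  set g := Cond.glue r p i with hg
  have hgV : VB ρ g := hr.glue hp hi.le hrr
  have hgp : g ≤ p := Cond.glue_le_right hrr
  have hgr : g.restr i = r := by rw [hg, Cond.glue_restr _ _ le_rfl, hrb]
  have htg : ∀ y ∈ (g.restr i).body, t ∈ g.T i y := by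
    intro y hy
    rw [hgr] at hy
    rw [hg, Cond.glue_T_ge _ _ le_rfl, ← ht y hy]
    exact (hc4 y).1
  obtain ⟨y0, hy0⟩ := r.body_nonempty
  have htl : t.length = n + 1 := by rw [← ht y0 hy0]; exact (hc4 y0).2
  refine ⟨g.node i t, le_trans (Cond.node_le htg) hgp, hgV.node hi htg, t[n], fun y hy => ?_⟩
  have h1 : y i ∈ bd (ty i) ((g.node i t).T i y) := hy i (Set.mem_insert _ _)
  have hyg : y ∈ (g.restr i).body := by
    rw [← Cond.node_restr g t le_rfl]
    exact Cond.mem_restr_of_mem hy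
  rw [Cond.node_T hyg (htg y hyg), bd_subT] at h1
  have h2 : pre (y i) t.length = t := h1.2
  have h3 : t[n] = (pre (y i) t.length)[n]'(by rw [length_pre]; omega) := by
    congr 1
    exact h2.symm
  rw [h3, getElem_pre]

theorem cst (hCst2 : Cst2Stmt I) {ρ : I} (hih : ∀ ρ', ρ' < ρ → BRw I ρ' ∧ Cst I ρ')
    (hB : BRw I ρ) : Cst I ρ := by
  intro p hp A hA hAd
  -- the sigma algebra of the sets which can be decided
  let M : MeasurableSpace (Pt I) :=
    { MeasurableSet' := fun A => Dc I ρ (tr I ρ ⁻¹' A)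
      measurableSet_empty := Dc.empty I ρ
      measurableSet_compl := fun A h => Dc.compl I h
      measurableSet_iUnion := fun A h => by
        rw [preimage_iUnion]
        exact Dc.iUnion I hB h }
  have h1 : ∀ A, @MeasurableSet _ M A ↔ Dc I ρ (tr I ρ ⁻¹' A) := fun A => Iff.rfl
  have h2 : @Measurable (Pt I) (Pt I) M MeasurableSpace.pi id := by
    refine @measurable_pi_lambda (Pt I) I (fun _ => R) M (fun _ => MeasurableSpace.pi) id
      fun i => ?_
    refine @measurable_pi_lambda (Pt I) ℕ (fun _ => Bool) M (fun _ => inferInstance)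
      (fun y => y i) fun n => ?_
    refine @measurable_to_bool (Pt I) M (fun y => y i n) ?_
    rw [h1]
    intro p hp
    by_cases hi : i < ρ
    · obtain ⟨q, hqp, hq, b, hb⟩ := gen I hCst2 hi (hih i hi).1 (hih i hi).2 n p hp
      refine ⟨q, hqp, hq, ?_⟩
      cases b
      · right
        rw [disjoint_left]
        intro y hy hy'
        have h3 : tr I ρ y i n = true := hy'
        rw [tr, if_pos hi, hb y hy] at h3
        exact absurd h3 (by decide)
      · left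
        intro y hy
        show tr I ρ y i n = true
        rw [tr, if_pos hi, hb y hy]
    · refine ⟨p, le_rfl, hp, Or.inr ?_⟩
      rw [disjoint_left]
      intro y hy hy'
      have h3 : tr I ρ y i n = true := hy'
      rw [tr, if_neg hi] at h3
      exact absurd h3 (by decide)
  have h3 : Dc I ρ (tr I ρ ⁻¹' A) := (h1 A).1 (h2 hA)
  have h4 : tr I ρ ⁻¹' A = A := by
    ext y
    have h5 := hAd (tr I ρ y) y (fun i hi => by rw [tr, if_pos hi])
    exact iff_of_eq h5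
  rw [h4] at h3
  exact h3 p hp

/-- Module PROP. -/
theorem prop (hHull : HullStmt.{0} I) (hGd : GdStmt I) (hHg : HgStmt I) (hClaim : ClaimStmt I)
    (hCst2 : Cst2Stmt I) : PropStmt I := by
  intro ρ
  induction ρ using WellFoundedLT.induction with
  | _ ρ ih =>
    have hih : ∀ ρ', ρ' < ρ → BRw I ρ' ∧ Cst I ρ' := fun ρ' h => ⟨(ih ρ' h).1, (ih ρ' h).2.1⟩
    have h1 := sequ I hHull hGd hClaim hHg ρ hih
    have h2 := brw I h1
    exact ⟨h2, cst I hCst2 hih h2, h1⟩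

end Pool.Agent.MG.H92
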